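import Mathlib

/-!
For every `d > 1` there are `k = 2 d` bipartite graphs with one common bipartition, each
`d`-regular with `k d` edges, and no rainbow matching: one graph is two copies of `K_{d,d}`,
the others are its bipartite complement.
-/

set_option autoImplicit false

namespace Pool.Agent.Results.MP_3ec6a8_co.NoRainbow

theorem result (d : ℕ) (hd : 1 < d) :
    ∃ (k : ℕ) (V : Type) (_ : Finite V) (A : Set V) (F : Fin k → SimpleGraph V), 1 ≤ k ∧
      (∀ i, (F i).IsBipartiteWith A Aᶜ) ∧
      (∀ i v, ((F i).neighborSet v).ncard ≤ d) ∧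
      (∀ i, (k - 1) * d < (F i).edgeSet.ncard) ∧
      ¬ ∃ e : Fin k → Sym2 V, (∀ i, e i ∈ (F i).edgeSet) ∧
        ∀ i j, i ≠ j → ∀ v, v ∈ e i → v ∉ e j := by
  classical
  let G : Bool → SimpleGraph (Bool × Bool × Fin d) := fun b =>
    { Adj := fun u v => v.1 = !u.1 ∧ v.2.1 = xor b u.2.1
      symm := ⟨by
        rintro ⟨s, p, x⟩ ⟨t, q, y⟩
        cases s <;> cases t <;> cases p <;> cases q <;> cases b <;> simp⟩
      loopless := ⟨by
        rintro ⟨s, p, x⟩
        cases s <;> simp⟩ }
  have hG : ∀ b u v, (G b).Adj u v ↔ v.1 = !u.1 ∧ v.2.1 = xor b u.2.1 := fun _ _ _ => Iff.rfl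
  have hN : ∀ b v, (G b).neighborSet v = Set.range (fun x : Fin d => (!v.1, xor b v.2.1, x)) := by
    intro b v
    ext ⟨t, q, y⟩
    simp [hG, eq_comm]
  have hdeg : ∀ b v, ((G b).neighborSet v).ncard = d := by
    intro b v
    rw [hN, Set.ncard_range_of_injective (fun x y h => by simpa using h)]
    simp
  have hE : ∀ b, (G b).edgeSet.ncard = 2 * d * d := by
    intro b
    have h1 := (G b).sum_degrees_eq_twice_card_edges
    have h2 : ∀ v, (G b).degree v = d := by
      intro v
      rw [← SimpleGraph.card_neighborSet_eq_degree, ← Nat.card_eq_fintype_card,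
        Nat.card_coe_set_eq, hdeg]
    simp only [h2, Finset.sum_const, Finset.card_univ, Fintype.card_prod, Fintype.card_bool,
      Fintype.card_fin, smul_eq_mul] at h1
    rw [← SimpleGraph.coe_edgeFinset, Set.ncard_coe_finset]
    nlinarith
  let z : Fin (2 * d) := ⟨0, by omega⟩
  refine ⟨2 * d, Bool × Bool × Fin d, inferInstance, {v | v.1 = true},
    fun i => G (decide (i ≠ z)), by omega, fun i => ⟨disjoint_compl_right, ?_⟩,
    fun i v => (hdeg _ v).le, fun i => ?_, ?_⟩
  · rintro ⟨s, p, x⟩ ⟨t, q, y⟩ h
    have h1 := ((hG _ _ _).mp h).1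
    cases s <;> cases t <;> simp_all
  · rw [hE]
    exact Nat.mul_lt_mul_of_pos_right (by omega) (by omega)
  · rintro ⟨e, he, hdis⟩
    obtain ⟨a, b, hab, hz⟩ : ∃ a b, (G false).Adj a b ∧ e z = s(a, b) := by
      have := he z
      induction h : e z using Sym2.ind with
      | _ a b => exact ⟨a, b, by simpa [h] using this, rfl⟩
    have hab' := (hG _ _ _).mp hab
    have h1 : ∀ i, i ≠ z → ∃ u, u ∈ e i ∧ u.2.1 = a.2.1 := by
      intro i hi
      have := he i
      induction h : e i using Sym2.ind with
      | _ u v =>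
        rw [h, SimpleGraph.mem_edgeSet, hG] at this
        by_cases hu : u.2.1 = a.2.1
        · exact ⟨u, by simp, hu⟩
        · refine ⟨v, by simp, ?_⟩
          rw [this.2]
          revert hu
          cases u.2.1 <;> cases a.2.1 <;> simp [hi]
    have : Nonempty (Bool × Bool × Fin d) := ⟨a⟩
    choose! u hu using h1
    let w : Fin (2 * d) → Bool × Bool × Fin d := fun i => if i = z then a else u i
    have hw : ∀ i, w i ∈ e i ∧ (w i).2.1 = a.2.1 := by
      intro i
      by_cases hi : i = z
      · simp [w, hi, hz]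
      · simpa [w, hi] using hu i hi
    have hinj : Function.Injective (fun i => ((w i).1, (w i).2.2)) := by
      intro i j hij
      by_contra hne
      have h2 : w i = w j := by
        simp only [Prod.mk.injEq] at hij
        exact Prod.ext hij.1 (Prod.ext ((hw i).2.trans (hw j).2.symm) hij.2)
      exact hdis i j hne _ (hw i).1 (h2 ▸ (hw j).1)
    obtain ⟨i, hi⟩ := ((Fintype.bijective_iff_injective_and_card _).mpr ⟨hinj, by simp⟩).2
      (b.1, b.2.2)
    have h3 : w i = b := by
      simp only [Prod.mk.injEq] at hi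
      exact Prod.ext hi.1 (Prod.ext ((hw i).2.trans (by simpa using hab'.2.symm)) hi.2)
    by_cases hiz : i = z
    · have : a = b := by simpa [w, hiz] using h3
      exact hab.ne this
    · exact hdis i z hiz _ (hw i).1 (by simp [h3, hz])

end Pool.Agent.Results.MP_3ec6a8_co.NoRainbow
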